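import Pool.Agent.J6H50.RF.Stm

/-!
# RF-06: the standard initial segment of a model of `BASIC`
-/

set_option autoImplicit false

namespace Pool.Agent.J6H62.RF06

open Pool.Agent.J6H50.RF Pool.Agent.NPC

section
variable {M : Type} {A : Str M}

theorem le_refl' (h : Bas A) (x : M) : A.le x x := (h.b6 x x).elim id id

theorem le_suc (h : Bas A) (x : M) : A.le x (A.suc x) := h.b1 x x (le_refl' h x)

theorem not_suc_le (h : Bas A) (x : M) : ¬ A.le (A.suc x) x := fun h1 =>
  h.b2 x (h.b7 _ _ (le_suc h x) h1)

theorem le_zero (h : Bas A) {x : M} (hx : A.le x A.zero) : x = A.zero := h.b7 _ _ hx (h.b3 x)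

theorem suc_ne_zero (h : Bas A) (x : M) : A.suc x ≠ A.zero := by
  intro h1
  have h2 := le_suc h x
  rw [h1] at h2
  have h3 := le_zero h h2
  rw [h3] at h1
  exact h.b2 _ h1.symm

theorem le_of_le_suc (h : Bas A) {x y : M} (h1 : A.le x (A.suc y)) (h2 : x ≠ A.suc y) : A.le x y := by
  rcases h.b6 y x with h3 | h3
  · exact h3
  · by_cases h4 : y = x
    · rw [h4]; exact le_refl' h x
    · exact absurd (h.b7 _ _ h1 ((h.b4 y x).1 ⟨h3, h4⟩)) h2

theorem suc_le_suc (h : Bas A) (x y : M) : A.le (A.suc x) (A.suc y) ↔ A.le x y := by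
  rw [← h.b4]
  constructor
  · rintro ⟨h1, h2⟩
    exact le_of_le_suc h h1 h2
  · intro h1
    refine ⟨h.b1 y x h1, ?_⟩
    rintro rfl
    exact not_suc_le h y h1

theorem iota_le (h : Bas A) : ∀ m n : ℕ, A.le (A.suc^[m] A.zero) (A.suc^[n] A.zero) ↔ m ≤ n := by
  intro m
  induction m with
  | zero => intro n; simpa using h.b3 _
  | succ m ih =>
    intro n
    cases n with
    | zero =>
      rw [Function.iterate_succ_apply', Function.iterate_zero, id]
      constructor
      · intro h1
        exact absurd (le_zero h h1) (suc_ne_zero h _)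
      · intro h1
        omega
    | succ n =>
      rw [Function.iterate_succ_apply', Function.iterate_succ_apply', suc_le_suc h, ih]
      omega

end

theorem m06 : S_emb1 := by
  intro M A h
  refine ⟨fun n => A.suc^[n] A.zero, ?_, rfl, ?_, ?_, ?_, iota_le h, ?_⟩
  · intro m n hmn
    simp only at hmn
    have h1 := (iota_le h m n).1 (by rw [hmn]; exact le_refl' h _)
    have h2 := (iota_le h n m).1 (by rw [hmn]; exact le_refl' h _)
    omega
  · intro n
    exact Function.iterate_succ_apply' _ _ _
  · intro m n
    induction n with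
    | zero => simp [h.b22]
    | succ n ih =>
      simp only at ih ⊢
      rw [← Nat.add_assoc, Function.iterate_succ_apply', Function.iterate_succ_apply', ih, h.b23]
  · intro m n
    have hadd : ∀ a b : ℕ, A.suc^[a + b] A.zero = A.add (A.suc^[a] A.zero) (A.suc^[b] A.zero) := by
      intro a b
      induction b with
      | zero => simp [h.b22]
      | succ b ih =>
        rw [← Nat.add_assoc, Function.iterate_succ_apply', Function.iterate_succ_apply', ih, h.b23]
    induction n with
    | zero => simp [h.b26]
    | succ n ih =>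
      simp only at ih ⊢
      rw [Nat.mul_succ, hadd, ih, Function.iterate_succ_apply' A.suc n, h.b27]
  · intro x n
    induction n with
    | zero =>
      intro h1
      exact ⟨0, le_zero h h1⟩
    | succ n ih =>
      intro h1
      simp only at h1 ih
      rw [Function.iterate_succ_apply'] at h1
      by_cases h2 : x = A.suc (A.suc^[n] A.zero)
      · exact ⟨n + 1, h2.trans (Function.iterate_succ_apply' A.suc n A.zero).symm⟩
      · exact ih (le_of_le_suc h h1 h2)

end Pool.Agent.J6H62.RF06
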